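import Mathlib

/-!
# Principal truncations do not create `M(K_4)`-minors

Everything is stated for integer valued rank functions of matroids. `Quad ρ a b c d e m` says that
`a, …, m` are the six elements `ij, ik, il, jk, jl, kl` of a copy of `M(K_4)` (with vertices
`i, j, k, l`) in the matroid with rank function `ρ`: the four triangles have rank at most two, and
the four stars have rank three.
-/

set_option autoImplicit false

namespace Pool.Agent.W2helper98.K4

open Set

/-- Rank functions of matroids. -/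
structure IsRank {α : Type} (r : Set α → ℤ) : Prop where
  empty : r ∅ = 0
  mono : ∀ ⦃A B : Set α⦄, A ⊆ B → r A ≤ r B
  insert_le : ∀ (A : Set α) (e : α), r (insert e A) ≤ r A + 1
  submod : ∀ A B : Set α, r (A ∪ B) + r (A ∩ B) ≤ r A + r B

/-- The rank function of the principal truncation along `F`. -/
def pt {α : Type} (r : Set α → ℤ) (F : Set α) : Set α → ℤ := fun S => min (r S) (r (S ∪ F) - 1)

/-- The rank function of the contraction of `C`. -/
def ctr {α : Type} (r : Set α → ℤ) (C : Set α) : Set α → ℤ := fun S => r (S ∪ C) - r C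

/-- The six elements form a copy of `M(K_4)`. -/
structure Quad {α : Type} (ρ : Set α → ℤ) (a b c d e m : α) : Prop where
  tl : ρ {a, b, d} ≤ 2
  tk : ρ {a, c, e} ≤ 2
  tj : ρ {b, c, m} ≤ 2
  ti : ρ {d, e, m} ≤ 2
  si : 3 ≤ ρ {a, b, c}
  sj : 3 ≤ ρ {a, d, e}
  sk : 3 ≤ ρ {b, d, m}
  sl : 3 ≤ ρ {c, e, m}

/-- Some contraction contains a copy of `M(K_4)`. -/
def HasQ {α : Type} (r : Set α → ℤ) : Prop :=
  ∃ (C : Set α) (a b c d e m : α), Quad (ctr r C) a b c d e m

section

variable {α : Type} {ρ : Set α → ℤ} {F : Set α}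

theorem IsRank.nonneg (h : IsRank ρ) (A : Set α) : 0 ≤ ρ A := h.empty ▸ h.mono (empty_subset A)

theorem IsRank.absorb (h : IsRank ρ) {A A' B : Set α} (h1 : ρ (A ∪ B) ≤ ρ A) (h2 : A ⊆ A') :
    ρ (A' ∪ B) ≤ ρ A' := by
  have h3 := h.submod A' (A ∪ B)
  have h4 : A' ∪ (A ∪ B) = A' ∪ B := by
    rw [← union_assoc, union_eq_self_of_subset_right h2]
  have h5 : ρ A ≤ ρ (A' ∩ (A ∪ B)) := h.mono (subset_inter h2 subset_union_left)
  rw [h4] at h3
  linarith

theorem IsRank.ctr (h : IsRank ρ) (C : Set α) : IsRank (ctr ρ C) where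
  empty := by simp [K4.ctr]
  mono A B hAB := by
    have := h.mono (union_subset_union_left C hAB)
    simp only [K4.ctr]
    linarith
  insert_le A e := by
    have := h.insert_le (A ∪ C) e
    simp only [K4.ctr, insert_union]
    linarith
  submod A B := by
    have h1 := h.submod (A ∪ C) (B ∪ C)
    rw [← inter_union_distrib_right, ← union_union_distrib_right] at h1
    simp only [K4.ctr]
    linarith

theorem IsRank.pt (h : IsRank ρ) (hF : 1 ≤ ρ F) : IsRank (pt ρ F) where
  empty := by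
    simp only [K4.pt, h.empty, empty_union]
    omega
  mono A B hAB := by
    have h1 := h.mono hAB
    have h2 := h.mono (union_subset_union_left F hAB)
    simp only [K4.pt]
    omega
  insert_le A e := by
    have h1 := h.insert_le A e
    have h2 := h.insert_le (A ∪ F) e
    simp only [K4.pt, insert_union]
    omega
  submod A B := by
    have h1 := h.submod A B
    have h2 := h.submod (A ∪ F) (B ∪ F)
    rw [← inter_union_distrib_right, ← union_union_distrib_right] at h2
    have h3 := h.submod A (B ∪ F)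
    have h4 := h.submod (A ∪ F) B
    rw [← union_assoc] at h3
    have e4 : A ∪ F ∪ B = A ∪ B ∪ F := by rw [union_assoc, union_comm F B, union_assoc]
    rw [e4] at h4
    have h5 : ρ (A ∩ B) ≤ ρ (A ∩ (B ∪ F)) := h.mono (inter_subset_inter_right _ subset_union_left)
    have h6 : ρ (A ∩ B) ≤ ρ ((A ∪ F) ∩ B) := h.mono (inter_subset_inter_left _ subset_union_left)
    simp only [K4.pt]
    omega

/-- the closure property for finite sets -/
theorem IsRank.union_le (h : IsRank ρ) {A B : Set α} (hB : B.Finite)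
    (h1 : ∀ x ∈ B, ρ (A ∪ {x}) ≤ ρ A) : ρ (A ∪ B) ≤ ρ A := by
  induction B, hB using Set.Finite.induction_on with
  | empty => simp
  | @insert x B hx hB ih =>
    have h2 := ih fun y hy => h1 y (mem_insert_of_mem _ hy)
    have h3 := h.absorb (h1 x (mem_insert _ _)) (subset_union_left (s := A) (t := B))
    have h4 : A ∪ insert x B = A ∪ B ∪ {x} := by
      ext y
      simp only [mem_union, mem_insert_iff, mem_singleton_iff]
      tauto
    rw [h4]
    linarith

theorem IsRank.pair_le (h : IsRank ρ) (x y : α) : ρ {x, y} ≤ 2 := by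
  have h1 := h.insert_le {y} x
  have h2 := h.insert_le ∅ y
  rw [h.empty, insert_empty_eq] at h2
  linarith

theorem IsRank.single_le (h : IsRank ρ) (x : α) : ρ {x} ≤ 1 := by
  have h2 := h.insert_le ∅ x
  rw [h.empty, insert_empty_eq] at h2
  linarith

theorem IsRank.triple_le (h : IsRank ρ) (x y z : α) : ρ {x, y, z} ≤ 3 := by
  have h1 := h.insert_le {y, z} x
  have h2 := h.pair_le y z
  linarith

/-- What a copy of `M(K_4)` in the principal truncation along `F` says about the matroid. -/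
structure Pre (ρ : Set α → ℤ) (F : Set α) (a b c d e m : α) : Prop where
  tl : ρ {a, b, d} ≤ 2 ∨ ρ ({a, b, d} ∪ F) ≤ 3
  tk : ρ {a, c, e} ≤ 2 ∨ ρ ({a, c, e} ∪ F) ≤ 3
  tj : ρ {b, c, m} ≤ 2 ∨ ρ ({b, c, m} ∪ F) ≤ 3
  ti : ρ {d, e, m} ≤ 2 ∨ ρ ({d, e, m} ∪ F) ≤ 3
  si : 3 ≤ ρ {a, b, c} ∧ 4 ≤ ρ ({a, b, c} ∪ F)
  sj : 3 ≤ ρ {a, d, e} ∧ 4 ≤ ρ ({a, d, e} ∪ F)
  sk : 3 ≤ ρ {b, d, m} ∧ 4 ≤ ρ ({b, d, m} ∪ F)
  sl : 3 ≤ ρ {c, e, m} ∧ 4 ≤ ρ ({c, e, m} ∪ F)

theorem Pre.of_quad {a b c d e m : α} (h : Quad (pt ρ F) a b c d e m) :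
    Pre ρ F a b c d e m := by
  obtain ⟨h1, h2, h3, h4, h5, h6, h7, h8⟩ := h
  simp only [K4.pt] at h1 h2 h3 h4 h5 h6 h7 h8
  constructor <;> omega

theorem t1 (x y z : α) : ({x, y, z} : Set α) = {y, x, z} := insert_comm x y {z}

theorem t2 (x y z : α) : ({x, y, z} : Set α) = {x, z, y} := by
  rw [pair_comm y z]

theorem t3 (x y z : α) : ({x, y, z} : Set α) = {z, y, x} := by
  rw [t1 x y z, t2 y x z, t1 y z x]

theorem t4 (x y z : α) : ({x, y, z} : Set α) = {y, z, x} := by
  rw [t1 x y z, t2 y x z]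

theorem t5 (x y z : α) : ({x, y, z} : Set α) = {z, x, y} := by
  rw [t4 z x y]

/-- exchange the vertices `k` and `l` -/
theorem Pre.kl {a b c d e m : α} (h : Pre ρ F a b c d e m) : Pre ρ F a c b e d m := by
  obtain ⟨h1, h2, h3, h4, h5, h6, h7, h8⟩ := h
  exact ⟨h2, h1, by rwa [t1 c b m], by rwa [t1 e d m], by rwa [t2 a c b], by rwa [t2 a e d], h8, h7⟩

/-- exchange the vertices `i` and `j` -/
theorem Pre.ij {a b c d e m : α} (h : Pre ρ F a b c d e m) : Pre ρ F a d e b c m := by
  obtain ⟨h1, h2, h3, h4, h5, h6, h7, h8⟩ := h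
  exact ⟨by rwa [t2 a d b], by rwa [t2 a e c], h4, h3, h6, h5, by rwa [t1 d b m],
    by rwa [t1 e c m]⟩

/-- exchange the vertices `j` and `k` -/
theorem Pre.jk {a b c d e m : α} (h : Pre ρ F a b c d e m) : Pre ρ F b a c d m e := by
  obtain ⟨h1, h2, h3, h4, h5, h6, h7, h8⟩ := h
  exact ⟨by rwa [t1 b a d], h3, h2, by rwa [t2 d m e], by rwa [t1 b a c], h7, h6, by rwa [t2 c m e]⟩

variable {a b c d e m : α}

theorem two (hρ : IsRank ρ) (h : Pre ρ F a b c d e m) (h2 : 2 ≤ ρ F)
    (hl : ¬ ρ {a, b, d} ≤ 2) (hk : ¬ ρ {a, c, e} ≤ 2) :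
    ρ (F ∪ {a}) ≤ 2 ∧ 4 ≤ ρ ({a, b, d} ∪ {a, c, e}) ∧ ρ F = 2 := by
  have hl' := h.tl.resolve_left hl
  have hk' := h.tk.resolve_left hk
  have el := hρ.triple_le a b d
  have h4 : 4 ≤ ρ ({a, b, d} ∪ {a, c, e}) := by
    by_contra hcon
    have hs := h.si
    have e1 : ρ ({a, b, d} ∪ F) ≤ ρ {a, b, d} := by omega
    have e2 := hρ.absorb e1 (subset_union_left (s := {a, b, d}) (t := {a, c, e}))
    have e3 : ρ ({a, b, c} ∪ F) ≤ ρ ({a, b, d} ∪ {a, c, e} ∪ F) := by
      apply hρ.mono
      apply union_subset_union_left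
      intro x hx
      simp only [mem_insert_iff, mem_singleton_iff, mem_union] at hx ⊢
      tauto
    omega
  have h5 := hρ.submod ({a, b, d} ∪ F) ({a, c, e} ∪ F)
  have h6 : ρ ({a, b, d} ∪ {a, c, e}) ≤ ρ ({a, b, d} ∪ F ∪ ({a, c, e} ∪ F)) := by
    apply hρ.mono
    intro x hx
    simp only [mem_insert_iff, mem_singleton_iff, mem_union] at hx ⊢
    tauto
  have h7 : ρ (F ∪ {a}) ≤ ρ (({a, b, d} ∪ F) ∩ ({a, c, e} ∪ F)) := by
    apply hρ.mono
    intro x hx
    simp only [mem_insert_iff, mem_singleton_iff, mem_union, mem_inter_iff] at hx ⊢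
    tauto
  have h8 : ρ F ≤ ρ (F ∪ {a}) := hρ.mono subset_union_left
  refine ⟨by omega, h4, by omega⟩

theorem three (hρ : IsRank ρ) (h : Pre ρ F a b c d e m) (h2 : 2 ≤ ρ F)
    (hl : ¬ ρ {a, b, d} ≤ 2) (hk : ¬ ρ {a, c, e} ≤ 2) (hj : ¬ ρ {b, c, m} ≤ 2) : False := by
  obtain ⟨h3, h4, h5⟩ := two hρ h h2 hl hk
  obtain ⟨h6, -, -⟩ := two hρ h.jk h2 (by rwa [t1 b a d]) hj
  obtain ⟨h7, -, -⟩ := two hρ h.kl.jk h2 (by rwa [t1 c a e]) (by rwa [t1 c b m])
  have h8 := hρ.union_le (A := F) (B := {a, b, c}) (Set.toFinite _) (by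
    intro x hx
    rcases hx with rfl | rfl | rfl <;> omega)
  have h9 := hρ.mono (subset_union_right (s := F) (t := {a, b, c}))
  have := h.si
  omega

theorem one (hρ : IsRank ρ) (h : Pre ρ F a b c d e m)
    (hl : ¬ ρ {a, b, d} ≤ 2) (hk : ρ {a, c, e} ≤ 2) (hj : ρ {b, c, m} ≤ 2)
    (hi : ρ {d, e, m} ≤ 2) : False := by
  have hl' := h.tl.resolve_left hl
  have hs := h.sl
  have el := hρ.triple_le a b d
  have es := hρ.triple_le c e m
  have e1 : ρ {c, e, m} ≤ ρ {c, e} + 1 := by rw [t3 c e m, t2 m e c]; exact hρ.insert_le {c, e} m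
  have e2 : ρ {c, e, m} ≤ ρ {c, m} + 1 := by rw [t1 c e m]; exact hρ.insert_le {c, m} e
  have e3 : ρ {c, e, m} ≤ ρ {e, m} + 1 := hρ.insert_le {e, m} c
  have e4 := hρ.union_le (A := {c, e, m}) (B := {a, b, d}) (Set.toFinite _) (by
    intro x hx
    rcases hx with rfl | rfl | rfl
    · apply hρ.absorb (A := {c, e})
      · have : ({c, e} ∪ {x} : Set α) = {x, c, e} := by rw [union_comm, singleton_union]
        rw [this]; omega
      · intro y hy
        simp only [mem_insert_iff, mem_singleton_iff] at hy ⊢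
        tauto
    · apply hρ.absorb (A := {c, m})
      · have : ({c, m} ∪ {x} : Set α) = {x, c, m} := by rw [union_comm, singleton_union]
        rw [this]; omega
      · intro y hy
        simp only [mem_insert_iff, mem_singleton_iff] at hy ⊢
        tauto
    · apply hρ.absorb (A := {e, m})
      · have : ({e, m} ∪ {x} : Set α) = {x, e, m} := by rw [union_comm, singleton_union]
        rw [this]; omega
      · intro y hy
        simp only [mem_insert_iff, mem_singleton_iff] at hy ⊢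
        tauto)
  have e5 : ρ ({a, b, d} ∪ F) ≤ ρ {a, b, d} := by omega
  have e6 := hρ.absorb e5 (subset_union_right (s := {c, e, m}) (t := {a, b, d}))
  have e7 : ρ ({c, e, m} ∪ F) ≤ ρ ({c, e, m} ∪ {a, b, d} ∪ F) :=
    hρ.mono (union_subset_union_left _ subset_union_left)
  omega

/-- The main case: two unbalanced triangles. -/
theorem main2 (hρ : IsRank ρ) (hFf : F.Finite) (h : Pre ρ F a b c d e m) (h2 : 2 ≤ ρ F)
    (hl : ¬ ρ {a, b, d} ≤ 2) (hk : ¬ ρ {a, c, e} ≤ 2) (hj : ρ {b, c, m} ≤ 2)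
    (hi : ρ {d, e, m} ≤ 2) :
    (∃ y, Quad ρ y b c d e m) ∨ ∃ x, Quad (ctr ρ {x}) a b c d e m := by
  obtain ⟨h3, h4, h5⟩ := two hρ h h2 hl hk
  have hl' := h.tl.resolve_left hl
  have hk' := h.tk.resolve_left hk
  have el := hρ.triple_le a b d
  have ek := hρ.triple_le a c e
  -- the plane spanned by the other five elements
  set π : Set α := {b, c, m} ∪ {d, e, m} with hπ
  have hm1 : 1 ≤ ρ {m} := by
    have h6 := hρ.insert_le {d, m} b
    have h7 := hρ.insert_le {m} d
    have := h.sk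
    omega
  have hπ3 : ρ π ≤ 3 := by
    have h6 : ρ π + ρ ({b, c, m} ∩ {d, e, m}) ≤ ρ {b, c, m} + ρ {d, e, m} :=
      hρ.submod {b, c, m} {d, e, m}
    have h7 : ρ {m} ≤ ρ ({b, c, m} ∩ {d, e, m}) := by
      apply hρ.mono
      intro x hx
      simp only [mem_insert_iff, mem_singleton_iff, mem_inter_iff] at hx ⊢
      tauto
    omega
  have hπk : ({b, d, m} : Set α) ⊆ π := by
    intro x hx
    simp only [hπ, mem_insert_iff, mem_singleton_iff, mem_union] at hx ⊢
    tauto
  have hπl : ({c, e, m} : Set α) ⊆ π := by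
    intro x hx
    simp only [hπ, mem_insert_iff, mem_singleton_iff, mem_union] at hx ⊢
    tauto
  have hπa : 4 ≤ ρ (π ∪ {a}) := by
    refine h4.trans (hρ.mono ?_)
    intro x hx
    simp only [hπ, mem_insert_iff, mem_singleton_iff, mem_union] at hx ⊢
    tauto
  have hsk := h.sk
  have hsl := h.sl
  have hsi := h.si
  have hsj := h.sj
  have hmk := hρ.mono hπk
  have hml := hρ.mono hπl
  have hFπ : 4 ≤ ρ (π ∪ F) := hsk.2.trans (hρ.mono (union_subset_union_left _ hπk))
  -- `x` outside the plane and outside `cl {a}`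
  by_cases hx : ∃ x ∈ F, 4 ≤ ρ (π ∪ {x}) ∧ 2 ≤ ρ {x, a}
  · obtain ⟨x, hxF, hx1, hx2⟩ := hx
    right
    refine ⟨x, ?_⟩
    have hx1' : ρ {x} = 1 := by
      have h6 := hρ.single_le x
      have h7 := hρ.submod π {x}
      have h8 := hρ.nonneg (π ∩ {x})
      omega
    -- `F` is in the closure of `{x, a}`
    have hFcl : ρ ({x, a} ∪ F) ≤ ρ {x, a} := by
      have : ({x, a} ∪ F : Set α) ⊆ F ∪ {a} := by
        intro y hy
        simp only [mem_insert_iff, mem_singleton_iff, mem_union] at hy ⊢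
        rcases hy with (rfl | rfl) | hy
        · exact Or.inl hxF
        · exact Or.inr rfl
        · exact Or.inl hy
      have := hρ.mono this
      omega
    have sub : ∀ T : Set α, ρ (T ∪ {x}) ≤ ρ (T ∪ F) := fun T =>
      hρ.mono (union_subset_union_right _ (singleton_subset_iff.2 hxF))
    have add1 : ∀ T : Set α, ρ (T ∪ {x}) ≤ ρ T + 1 := by
      intro T
      rw [union_comm, singleton_union]
      exact hρ.insert_le T x
    -- a set of rank three inside the plane gains rank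
    have up : ∀ S : Set α, S ⊆ π → 3 ≤ ρ S → 4 ≤ ρ (S ∪ {x}) := by
      intro S hS h3
      by_contra hcon
      have h6 : ρ (S ∪ {x}) ≤ ρ S := by omega
      have h7 := hρ.absorb h6 hS
      omega
    have up2 : ∀ S : Set α, a ∈ S → 4 ≤ ρ (S ∪ F) → 4 ≤ ρ (S ∪ {x}) := by
      intro S ha hSF
      have h6 := hρ.absorb hFcl (A' := S ∪ {x}) (by
        intro y hy
        rcases hy with rfl | rfl
        · exact Or.inr rfl
        · exact Or.inl ha)
      have h7 : ρ (S ∪ F) ≤ ρ (S ∪ {x} ∪ F) := hρ.mono (by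
        rw [union_assoc]
        exact union_subset_union_right _ subset_union_right)
      omega
    have s1 := sub {a, b, d}
    have s2 := sub {a, c, e}
    have s3 := add1 {b, c, m}
    have s4 := add1 {d, e, m}
    have u1 := up2 {a, b, c} (by simp) hsi.2
    have u2 := up2 {a, d, e} (by simp) hsj.2
    have u3 := up _ hπk hsk.1
    have u4 := up _ hπl hsl.1
    constructor <;> simp only [ctr] <;> omega
  · push Not at hx
    left
    -- all elements of `F` outside the plane are parallel to `a`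
    obtain ⟨y, hyF, hya⟩ : ∃ y ∈ F, 2 ≤ ρ {y, a} := by
      by_contra hcon
      push Not at hcon
      have ha1 : 1 ≤ ρ {a} := by
        by_contra ha
        have h6 : ρ (∅ ∪ {a}) ≤ ρ ∅ := by
          rw [empty_union, hρ.empty]; omega
        have h7 := hρ.absorb h6 (empty_subset π)
        omega
      have h6 := hρ.union_le (A := {a}) (B := F) hFf (by
        intro y hy
        have h7 := hcon y hy
        have h8 : ({a} ∪ {y} : Set α) = {y, a} := by rw [union_comm, singleton_union]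
        rw [h8]
        omega)
      have h7 := hρ.mono (subset_union_right (s := {a}) (t := F))
      have h8 := hρ.single_le a
      omega
    refine ⟨y, ?_⟩
    have hyπ : ρ (π ∪ {y}) ≤ 3 := by
      by_contra hcon
      have := hx y hyF (by omega)
      omega
    have hFcl : ρ ({y, a} ∪ F) ≤ ρ {y, a} := by
      have : ({y, a} ∪ F : Set α) ⊆ F ∪ {a} := by
        intro z hz
        simp only [mem_insert_iff, mem_singleton_iff, mem_union] at hz ⊢
        rcases hz with (rfl | rfl) | hz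
        · exact Or.inl hyF
        · exact Or.inr rfl
        · exact Or.inl hz
      have := hρ.mono this
      omega
    -- the new lines
    have line : ∀ p q : α, p ∈ π → q ∈ π → ρ ({a, p, q} ∪ F) ≤ 3 → ρ {y, p, q} ≤ 2 := by
      intro p q hp hq h6
      have h7 := hρ.submod (π ∪ {y}) ({a, p, q} ∪ F)
      have h8 : ρ (π ∪ {a}) ≤ ρ (π ∪ {y} ∪ ({a, p, q} ∪ F)) := by
        apply hρ.mono
        intro z hz
        simp only [mem_insert_iff, mem_singleton_iff, mem_union] at hz ⊢
        tauto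
      have h9 : ρ {y, p, q} ≤ ρ ((π ∪ {y}) ∩ ({a, p, q} ∪ F)) := by
        apply hρ.mono
        intro z hz
        simp only [mem_insert_iff, mem_singleton_iff, mem_union, mem_inter_iff] at hz ⊢
        rcases hz with rfl | rfl | rfl
        · exact ⟨Or.inr rfl, Or.inr hyF⟩
        · exact ⟨Or.inl hp, Or.inl (Or.inr (Or.inl rfl))⟩
        · exact ⟨Or.inl hq, Or.inl (Or.inr (Or.inr rfl))⟩
      omega
    -- the new stars
    have star : ∀ p q : α, 3 ≤ ρ {a, p, q} → 4 ≤ ρ ({a, p, q} ∪ F) → 3 ≤ ρ {y, p, q} := by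
      intro p q h6 h7
      by_contra hcon
      have h8 := hρ.insert_le {p, q} a
      have h9 : ρ ({p, q} ∪ {y}) ≤ ρ {p, q} := by
        rw [union_comm, singleton_union]
        omega
      have h10 := hρ.absorb h9 (A' := {a, p, q}) (by
        intro z hz
        exact Or.inr hz)
      have h11 := hρ.absorb hFcl (A' := {a, p, q} ∪ {y}) (by
        intro z hz
        rcases hz with rfl | rfl
        · exact Or.inr rfl
        · exact Or.inl (Or.inl rfl))
      have h12 : ρ ({a, p, q} ∪ F) ≤ ρ ({a, p, q} ∪ {y} ∪ F) := hρ.mono (by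
        rw [union_assoc]
        exact union_subset_union_right _ subset_union_right)
      have h13 := hρ.triple_le a p q
      omega
    have hb : b ∈ π := by simp [hπ]
    have hc : c ∈ π := by simp [hπ]
    have hd : d ∈ π := by simp [hπ]
    have he : e ∈ π := by simp [hπ]
    exact ⟨line b d hb hd hl', line c e hc he hk', hj, hi, star b c hsi.1 hsi.2,
      star d e hsj.1 hsj.2, hsk.1, hsl.1⟩

/-- **Principal truncations do not create copies of `M(K_4)`.** -/
theorem core (hρ : IsRank ρ) (hFf : F.Finite) (hF : 1 ≤ ρ F) (h : Pre ρ F a b c d e m) :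
    (∃ a b c d e m, Quad ρ a b c d e m) ∨ ∃ x a b c d e m, Quad (ctr ρ {x}) a b c d e m := by
  by_cases h2 : 2 ≤ ρ F
  · have key : ∀ a b c d e m : α, (∃ y, Quad ρ y b c d e m) ∨ (∃ x, Quad (ctr ρ {x}) a b c d e m) →
        (∃ a b c d e m, Quad ρ a b c d e m) ∨ ∃ x a b c d e m, Quad (ctr ρ {x}) a b c d e m := by
      rintro a b c d e m (⟨y, hy⟩ | ⟨x, hx⟩)
      · exact Or.inl ⟨y, b, c, d, e, m, hy⟩
      · exact Or.inr ⟨x, a, b, c, d, e, m, hx⟩
    by_cases hl : ρ {a, b, d} ≤ 2 <;> by_cases hk : ρ {a, c, e} ≤ 2 <;>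
      by_cases hj : ρ {b, c, m} ≤ 2 <;> by_cases hi : ρ {d, e, m} ≤ 2
    · exact Or.inl ⟨a, b, c, d, e, m, hl, hk, hj, hi, h.si.1, h.sj.1, h.sk.1, h.sl.1⟩
    · -- `i`
      exact (one hρ h.ij.jk.kl hi (by rwa [t4 d a b]) (by rwa [t4 e a c])
        (by rwa [t4 m b c])).elim
    · -- `j`
      exact (one hρ h.jk.kl hj (by rwa [t1 b a d]) (by rwa [t1 c a e]) (by rwa [t4 m d e])).elim
    · -- `j`, `i`
      exact key _ _ _ _ _ _ (main2 hρ hFf h.jk.ij.kl.jk h2 (by rwa [t4 m b c]) (by rwa [t4 m d e])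
        (by rwa [t5 b d a]) (by rwa [t5 c e a]))
    · -- `k`
      exact (one hρ h.kl hk hl (by rwa [t1 c b m]) (by rwa [t1 e d m])).elim
    · -- `k`, `i`
      exact key _ _ _ _ _ _ (main2 hρ hFf h.kl.ij.jk h2 (by rwa [t4 e a c]) (by rwa [t1 e d m])
        (by rwa [t2 a d b]) (by rwa [t5 c m b]))
    · -- `k`, `j`
      exact key _ _ _ _ _ _ (main2 hρ hFf h.kl.jk h2 (by rwa [t1 c a e]) (by rwa [t1 c b m])
        hl (by rwa [t5 e m d]))
    · -- `k`, `j`, `i`
      exact (three hρ h.kl.jk.ij h2 (by rwa [t5 c e a]) (by rwa [t5 c m b]) (by rwa [t5 e m d])).elim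
    · -- `l`
      exact (one hρ h hl hk hj hi).elim
    · -- `l`, `i`
      exact key _ _ _ _ _ _ (main2 hρ hFf h.ij.jk h2 (by rwa [t4 d a b]) hi
        (by rwa [t2 a e c]) (by rwa [t2 b m c]))
    · -- `l`, `j`
      exact key _ _ _ _ _ _ (main2 hρ hFf h.jk h2 (by rwa [t1 b a d]) hj hk (by rwa [t2 d m e]))
    · -- `l`, `j`, `i`
      exact (three hρ h.jk.ij h2 (by rwa [t5 b d a]) (by rwa [t2 b m c]) (by rwa [t2 d m e])).elim
    · -- `l`, `k`
      exact key _ _ _ _ _ _ (main2 hρ hFf h h2 hl hk hj hi)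
    · -- `l`, `k`, `i`
      exact (three hρ h.ij h2 (by rwa [t2 a d b]) (by rwa [t2 a e c]) hi).elim
    · exact (three hρ h h2 hl hk hj).elim
    · exact (three hρ h h2 hl hk hj).elim
  · -- `F` has rank one
    obtain ⟨x, hxF, hx⟩ : ∃ x ∈ F, 1 ≤ ρ {x} := by
      by_contra hcon
      push Not at hcon
      have h6 := hρ.union_le (A := ∅) (B := F) hFf (by
        intro y hy
        have h7 := hcon y hy
        rw [empty_union, hρ.empty]
        omega)
      rw [empty_union, hρ.empty] at h6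
      omega
    right
    refine ⟨x, a, b, c, d, e, m, ?_⟩
    have hx1 := hρ.single_le x
    have hFx : ρ ({x} ∪ F) ≤ ρ {x} := by
      have : ({x} ∪ F : Set α) = F := union_eq_self_of_subset_left (singleton_subset_iff.2 hxF)
      rw [this]
      omega
    have eq : ∀ T : Set α, ρ (T ∪ {x}) = ρ (T ∪ F) := by
      intro T
      apply le_antisymm
      · exact hρ.mono (union_subset_union_right _ (singleton_subset_iff.2 hxF))
      · have h6 := hρ.absorb hFx (A' := T ∪ {x}) subset_union_right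
        have h7 : ρ (T ∪ F) ≤ ρ (T ∪ {x} ∪ F) := hρ.mono (by
          rw [union_assoc]
          exact union_subset_union_right _ subset_union_right)
        omega
    have le1 : ∀ T : Set α, ρ (T ∪ F) ≤ ρ T + 1 := by
      intro T
      rw [← eq, union_comm, singleton_union]
      exact hρ.insert_le T x
    have s1 := le1 {a, b, d}
    have s2 := le1 {a, c, e}
    have s3 := le1 {b, c, m}
    have s4 := le1 {d, e, m}
    obtain ⟨h1, h2, h3, h4, h5, h6, h7, h8⟩ := h
    constructor <;> simp only [ctr, eq] <;> omega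

theorem ctr_ctr (ρ : Set α → ℤ) (C D : Set α) : ctr (ctr ρ C) D = ctr ρ (D ∪ C) := by
  funext S
  simp only [ctr]
  rw [union_assoc]
  ring

/-- **Principal truncations do not create `M(K_4)`-minors.** -/
theorem HasQ.of_pt (hρ : IsRank ρ) (hFf : F.Finite) (hF : 1 ≤ ρ F) (h : HasQ (pt ρ F)) :
    HasQ ρ := by
  obtain ⟨C, a, b, c, d, e, m, hq⟩ := h
  by_cases hC : ρ (C ∪ F) - 1 < ρ C
  · -- `F` is contained in the closure of `C`
    have h1 : ctr (pt ρ F) C = ctr ρ C := by
      funext S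
      have h2 := hρ.mono (subset_union_left (s := C) (t := F))
      have h3 : ρ (C ∪ F) ≤ ρ C := by omega
      have h4 := hρ.absorb h3 (A' := S ∪ C) subset_union_right
      have h5 := hρ.mono (subset_union_left (s := S ∪ C) (t := F))
      simp only [ctr, pt]
      omega
    rw [h1] at hq
    exact ⟨C, a, b, c, d, e, m, hq⟩
  · have h1 : ctr (pt ρ F) C = pt (ctr ρ C) F := by
      funext S
      have h2 : S ∪ C ∪ F = S ∪ F ∪ C := by rw [union_assoc, union_comm C F, union_assoc]
      simp only [ctr, pt, h2]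
      omega
    rw [h1] at hq
    have h2 : 1 ≤ ctr ρ C F := by
      simp only [ctr]
      rw [union_comm F C]
      omega
    rcases core (hρ.ctr C) hFf h2 (Pre.of_quad hq) with ⟨a, b, c, d, e, m, h3⟩ |
      ⟨x, a, b, c, d, e, m, h3⟩
    · exact ⟨C, a, b, c, d, e, m, h3⟩
    · rw [ctr_ctr] at h3
      exact ⟨_, a, b, c, d, e, m, h3⟩

end

end Pool.Agent.W2helper98.K4
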