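import Pool.Agent.W2helper98.K4.Ops

/-!
# Induction through a directed graph

The matroid induced from `M₀` through a directed graph is obtained from the direct sum of `M₀` and
a free matroid on copies of the vertices by one principal truncation for each vertex.
-/

set_option autoImplicit false

namespace Pool.Agent.W2helper98.K4

open Set Pool.Agent.Helper442.FE

variable {τ : Type} [Finite τ]

/-- the rank function of the direct sum of `M₀` and the free matroid on a copy of `τ` -/
noncomputable def base (M₀ : Matroid τ) : Set (τ ⊕ τ) → ℤ := fun S =>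
  rk M₀ (Sum.inl ⁻¹' S) + ((Sum.inr ⁻¹' S).ncard : ℤ)

/-- the set of the vertex `t` -/
def FF (G : τ → τ → Prop) (t : τ) : Set (τ ⊕ τ) :=
  {Sum.inl t, Sum.inr t} ∪ Sum.inr '' {u | G t u}

/-- the set of a list of vertices -/
def FW (G : τ → τ → Prop) (W : Set τ) : Set (τ ⊕ τ) :=
  Sum.inl '' W ∪ Sum.inr '' (W ∪ {u | ∃ t ∈ W, G t u})

theorem FW_insert (G : τ → τ → Prop) (t : τ) (W : Set τ) :
    FW G (insert t W) = FW G W ∪ FF G t := by
  ext (x | x)
  · simp only [FW, FF, mem_union, mem_image, Sum.inl.injEq, exists_eq_right, mem_insert_iff,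
      reduceCtorEq, and_false, exists_false, or_false, mem_singleton_iff]
    tauto
  · simp only [FW, FF, mem_union, mem_image, Sum.inr.injEq, exists_eq_right, mem_insert_iff,
      reduceCtorEq, and_false, exists_false, false_or, mem_singleton_iff, mem_ofPred_eq,
      exists_eq_or_imp]
    constructor
    · rintro ((h | h) | h | h)
      · exact Or.inr (Or.inl h)
      · exact Or.inl (Or.inl h)
      · exact Or.inr (Or.inr h)
      · exact Or.inl (Or.inr h)
    · rintro ((h | h) | h | h)
      · exact Or.inl (Or.inr h)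
      · exact Or.inr (Or.inr h)
      · exact Or.inl (Or.inl h)
      · exact Or.inr (Or.inl h)

theorem isRank_ncard : IsRank fun S : Set τ => (S.ncard : ℤ) where
  empty := by simp
  mono A B h := by exact_mod_cast Set.ncard_le_ncard h (Set.toFinite _)
  insert_le A e := by exact_mod_cast Set.ncard_insert_le e A
  submod A B := by
    have := Set.ncard_union_add_ncard_inter A B (Set.toFinite _) (Set.toFinite _)
    have h : ((A ∪ B).ncard : ℤ) + (A ∩ B).ncard = A.ncard + B.ncard := by exact_mod_cast this
    exact h.le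

theorem isRank_sum {α β : Type} {r₁ : Set α → ℤ} {r₂ : Set β → ℤ} (h₁ : IsRank r₁)
    (h₂ : IsRank r₂) : IsRank fun S : Set (α ⊕ β) => r₁ (Sum.inl ⁻¹' S) + r₂ (Sum.inr ⁻¹' S) where
  empty := by simp [h₁.empty, h₂.empty]
  mono A B h := add_le_add (h₁.mono (preimage_mono h)) (h₂.mono (preimage_mono h))
  insert_le A e := by
    rcases e with e | e
    · have a1 : (Sum.inl ⁻¹' (insert (Sum.inl e) A : Set (α ⊕ β)) : Set α) =
          insert e (Sum.inl ⁻¹' A) := by ext w; simp
      have a2 : (Sum.inr ⁻¹' (insert (Sum.inl e) A : Set (α ⊕ β)) : Set β) = Sum.inr ⁻¹' A := by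
        ext w; simp
      have := h₁.insert_le (Sum.inl ⁻¹' A) e
      simp only [a1, a2]
      linarith
    · have a1 : (Sum.inr ⁻¹' (insert (Sum.inr e) A : Set (α ⊕ β)) : Set β) =
          insert e (Sum.inr ⁻¹' A) := by ext w; simp
      have a2 : (Sum.inl ⁻¹' (insert (Sum.inr e) A : Set (α ⊕ β)) : Set α) = Sum.inl ⁻¹' A := by
        ext w; simp
      have := h₂.insert_le (Sum.inr ⁻¹' A) e
      simp only [a1, a2]
      linarith
  submod A B := by
    have s1 := h₁.submod (Sum.inl ⁻¹' A) (Sum.inl ⁻¹' B)
    have s2 := h₂.submod (Sum.inr ⁻¹' A) (Sum.inr ⁻¹' B)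
    simp only [preimage_union, preimage_inter]
    linarith

theorem isRank_base (M₀ : Matroid τ) : IsRank (base M₀) :=
  isRank_sum (isRank_rk (Set.toFinite _)) isRank_ncard

/-- principal truncations along the sets of the vertices of a list -/
noncomputable def ptl (G : τ → τ → Prop) (r : Set (τ ⊕ τ) → ℤ) : List τ → Set (τ ⊕ τ) → ℤ
  | [] => r
  | t :: l => pt (ptl G r l) (FF G t)

/-- the rank formula -/
theorem ptl_le (G : τ → τ → Prop) (r : Set (τ ⊕ τ) → ℤ) : ∀ (l : List τ) (S : Set (τ ⊕ τ))
    (W : Finset τ), (∀ t ∈ W, t ∈ l) →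
    ptl G r l S ≤ r (S ∪ FW G (W : Set τ)) - W.card := by
  classical
  intro l
  induction l with
  | nil =>
    intro S W hW
    have : W = ∅ := by
      rw [Finset.eq_empty_iff_forall_notMem]
      intro x hx
      simpa using hW x hx
    subst this
    simp [ptl, FW]
  | cons t l ih =>
    intro S W hW
    by_cases ht : t ∈ W
    · have h1 := ih (S ∪ FF G t) (W.erase t) (by
        intro x hx
        rw [Finset.mem_erase] at hx
        rcases List.mem_cons.1 (hW x hx.2) with h | h
        · exact absurd h hx.1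
        · exact h)
      have h2 : (W.erase t).card + 1 = W.card := Finset.card_erase_add_one ht
      have h3 : S ∪ FF G t ∪ FW G ((W.erase t : Finset τ) : Set τ) = S ∪ FW G (W : Set τ) := by
        have h4 : (W : Set τ) = insert t ((W.erase t : Finset τ) : Set τ) := by
          rw [← Finset.coe_insert, Finset.insert_erase ht]
        conv_rhs => rw [h4, FW_insert]
        rw [union_assoc, union_comm (FF G t)]
      rw [h3] at h1
      simp only [ptl, pt]
      omega
    · have h1 := ih S W (by
        intro x hx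
        rcases List.mem_cons.1 (hW x hx) with h | h
        · exact absurd (h ▸ hx) ht
        · exact h)
      simp only [ptl, pt]
      omega

theorem exists_ptl (G : τ → τ → Prop) (r : Set (τ ⊕ τ) → ℤ) : ∀ (l : List τ), l.Nodup →
    ∀ (S : Set (τ ⊕ τ)), ∃ W : Finset τ, (∀ t ∈ W, t ∈ l) ∧
    ptl G r l S = r (S ∪ FW G (W : Set τ)) - W.card := by
  classical
  intro l
  induction l with
  | nil =>
    intro _ S
    refine ⟨∅, by simp, ?_⟩
    simp [ptl, FW]
  | cons t l ih =>
    intro hl S
    rw [List.nodup_cons] at hl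
    by_cases h : ptl G r l S ≤ ptl G r l (S ∪ FF G t) - 1
    · obtain ⟨W, hW, h1⟩ := ih hl.2 S
      refine ⟨W, fun x hx => List.mem_cons_of_mem _ (hW x hx), ?_⟩
      simp only [ptl, pt]
      omega
    · obtain ⟨W, hW, h1⟩ := ih hl.2 (S ∪ FF G t)
      have ht : t ∉ W := fun h => hl.1 (hW t h)
      refine ⟨insert t W, ?_, ?_⟩
      · intro x hx
        rw [Finset.mem_insert] at hx
        rcases hx with rfl | hx
        · exact List.mem_cons_self
        · exact List.mem_cons_of_mem _ (hW x hx)
      · have h2 : (insert t W).card = W.card + 1 := Finset.card_insert_of_notMem ht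
        have h3 : S ∪ FW G ((insert t W : Finset τ) : Set τ) = S ∪ FF G t ∪ FW G (W : Set τ) := by
          rw [Finset.coe_insert, FW_insert, union_assoc, union_comm (FF G t)]
        rw [h3, h2]
        simp only [ptl, pt]
        push_cast
        omega

theorem ptl_rank (G : τ → τ → Prop) (M₀ : Matroid τ) : ∀ (l : List τ), l.Nodup →
    IsRank (ptl G (base M₀) l) ∧ (HasQ (ptl G (base M₀) l) → HasQ (base M₀)) := by
  classical
  intro l
  induction l with
  | nil =>
    intro _
    exact ⟨isRank_base M₀, id⟩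
  | cons t l ih =>
    intro hl
    have hl' := List.nodup_cons.1 hl
    obtain ⟨h1, h2⟩ := ih hl'.2
    have h3 : 1 ≤ ptl G (base M₀) l (FF G t) := by
      obtain ⟨W, hW, h4⟩ := exists_ptl G (base M₀) l hl'.2 (FF G t)
      have ht : t ∉ W := fun h => hl'.1 (hW t h)
      rw [h4]
      have h5 : ((insert t W : Finset τ) : Set τ) ⊆ Sum.inr ⁻¹' (FF G t ∪ FW G (W : Set τ)) := by
        intro x hx
        rw [Finset.coe_insert] at hx
        rcases hx with rfl | hx
        · left; left; right; rfl
        · right; right; exact ⟨x, Or.inl hx, rfl⟩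
      have h6 := Set.ncard_le_ncard h5 (Set.toFinite _)
      rw [Set.ncard_coe_finset, Finset.card_insert_of_notMem ht] at h6
      have h7 := rk_nonneg M₀ (Sum.inl ⁻¹' (FF G t ∪ FW G (W : Set τ)))
      simp only [base]
      have h8 : ((W.card + 1 : ℕ) : ℤ) ≤ (Sum.inr ⁻¹' (FF G t ∪ FW G (W : Set τ))).ncard := by
        exact_mod_cast h6
      push_cast at h8
      omega
    exact ⟨h1.pt h3, fun hq => h2 (HasQ.of_pt h1 (Set.toFinite _) h3 hq)⟩

/-- the rank function of an induced matroid is given by principal truncations -/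
theorem rk_induced_eq {G : τ → τ → Prop} {M₀ N : Matroid τ} {A : Set τ}
    (hN : IsInduced G M₀ A N) {l : List τ} (hl : l.Nodup) (hl' : ∀ t, t ∈ l) {B : Set τ}
    (hB : B ⊆ A) : ptl G (base M₀) l (Sum.inr '' B) = rk N B := by
  classical
  rw [rk_induced hN hB]
  have key : ∀ W : Finset τ, base M₀ (Sum.inr '' B ∪ FW G (W : Set τ)) - W.card =
      cutv M₀ B (W ∪ {u | ∃ t ∈ W, G t u}) W := by
    intro W
    set x : Set τ := (W : Set τ) ∪ {u | ∃ t ∈ W, G t u} with hx
    have a1 : (Sum.inl ⁻¹' (Sum.inr '' B ∪ FW G (W : Set τ)) : Set τ) = W := by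
      ext w
      simp [FW]
    have a2 : (Sum.inr ⁻¹' (Sum.inr '' B ∪ FW G (W : Set τ)) : Set τ) = B ∪ x := by
      ext w
      simp [FW, hx]
    have a3 : (B \ x).ncard + x.ncard = (B ∪ x).ncard := Set.ncard_sdiff_add_ncard B x
    have a4 : (x \ (W : Set τ)).ncard + (W : Set τ).ncard = x.ncard :=
      Set.ncard_sdiff_add_ncard_of_subset subset_union_left
    rw [Set.ncard_coe_finset] at a4
    simp only [base, cutv, a1, a2]
    have a5 : ((B \ x).ncard : ℤ) + x.ncard = (B ∪ x).ncard := by exact_mod_cast a3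
    have a6 : ((x \ (W : Set τ)).ncard : ℤ) + W.card = x.ncard := by exact_mod_cast a4
    linarith
  apply le_antisymm
  · obtain ⟨x, y, hv, hmc⟩ := exists_mc G M₀ B
    rw [hmc]
    -- replace the cut by the cut of the set `y ∩ x`
    set W : Finset τ := (Set.toFinite (y ∩ x)).toFinset with hW
    have hW' : (W : Set τ) = y ∩ x := Set.Finite.coe_toFinset _
    have h1 := ptl_le G (base M₀) l (Sum.inr '' B) W (fun t _ => hl' t)
    rw [key W] at h1
    refine h1.trans ?_
    set z : Set τ := (W : Set τ) ∪ {u | ∃ t ∈ W, G t u} with hz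
    have hzx : z ⊆ x := by
      rintro u (hu | ⟨t, ht, hG⟩)
      · rw [hW'] at hu
        exact hu.2
      · have : t ∈ (W : Set τ) := ht
        rw [hW'] at this
        exact hv t u hG this.1
    have b1 : rk M₀ (W : Set τ) ≤ rk M₀ y := by
      rw [hW']
      exact (isRank_rk (Set.toFinite _)).mono inter_subset_left
    have b2 : (B \ z).ncard + (z \ (W : Set τ)).ncard ≤ (B \ x).ncard + (x \ y).ncard := by
      have c1 : B \ z ⊆ (B \ x) ∪ (x \ z) := by
        intro u hu
        by_cases hux : u ∈ x
        · exact Or.inr ⟨hux, hu.2⟩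
        · exact Or.inl ⟨hu.1, hux⟩
      have c2 := (Set.ncard_le_ncard c1 (Set.toFinite _)).trans (Set.ncard_union_le _ _)
      have c3 : x \ y = x \ (W : Set τ) := by
        rw [hW']
        ext u
        simp only [mem_sdiff, mem_inter_iff]
        tauto
      have c4 : (x \ z).ncard + (z \ (W : Set τ)).ncard = (x \ (W : Set τ)).ncard := by
        have d1 : x \ (W : Set τ) = (x \ z) ∪ (z \ (W : Set τ)) := by
          ext u
          simp only [mem_sdiff, mem_union]
          constructor
          · rintro ⟨h1, h2⟩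
            by_cases huz : u ∈ z
            · exact Or.inr ⟨huz, h2⟩
            · exact Or.inl ⟨h1, huz⟩
          · rintro (⟨h1, h2⟩ | ⟨h1, h2⟩)
            · exact ⟨h1, fun h => h2 (Or.inl h)⟩
            · exact ⟨hzx h1, h2⟩
        rw [d1, Set.ncard_union_eq _ (Set.toFinite _) (Set.toFinite _)]
        rw [Set.disjoint_left]
        exact fun u h1 h2 => h1.2 h2.1
      rw [c3]
      omega
    unfold cutv
    have b3 : ((B \ z).ncard : ℤ) + (z \ (W : Set τ)).ncard ≤ (B \ x).ncard + (x \ y).ncard := by
      exact_mod_cast b2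
    linarith
  · obtain ⟨W, hW, h1⟩ := exists_ptl G (base M₀) l hl (Sum.inr '' B)
    rw [h1, key W]
    apply mc_le
    intro u v hG hu
    exact Or.inr ⟨u, hu, hG⟩

/-- **Induction through a directed graph does not create `M(K_4)`-minors.** -/
theorem hasQ_induced {G : τ → τ → Prop} {M₀ N : Matroid τ} {A : Set τ}
    (hN : IsInduced G M₀ A N) (h : HasQ (rk N)) : HasQ (rk M₀) := by
  classical
  have := Fintype.ofFinite τ
  have hl : (Finset.univ : Finset τ).toList.Nodup := Finset.nodup_toList _
  have hl' : ∀ t, t ∈ (Finset.univ : Finset τ).toList := fun t => by simp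
  have h1 : HasQ (ptl G (base M₀) (Finset.univ : Finset τ).toList) := by
    refine h.mapOn Sum.inr A (isRank_rk (Set.toFinite _)) (fun S => ?_) fun S hS => ?_
    · rw [← hN.1]
      exact rk_inter_ground N S
    · exact rk_induced_eq hN hl hl' hS
  have h2 := (ptl_rank G M₀ _ hl).2 h1
  rcases h2.of_sum (isRank_base M₀) (isRank_rk (Set.toFinite _)) isRank_ncard (fun S => rfl) with
    h3 | ⟨C, a, b, c, d, e, m, hq⟩
  · exact h3
  · -- the free matroid
    exfalso
    have hc : ∀ S : Set τ, ctr (fun S : Set τ => (S.ncard : ℤ)) C S = (S \ C).ncard := by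
      intro S
      have := Set.ncard_sdiff_add_ncard S C
      simp only [ctr]
      have h : ((S \ C).ncard : ℤ) + C.ncard = (S ∪ C).ncard := by exact_mod_cast this
      linarith
    obtain ⟨h1, h2, h3, h4, h5, h6, h7, h8⟩ := hq
    rw [hc] at h1 h5 h6 h7
    have three : ∀ x y z : τ, (3 : ℤ) ≤ (({x, y, z} : Set τ) \ C).ncard →
        x ≠ y ∧ x ≠ z ∧ y ≠ z ∧ x ∉ C ∧ y ∉ C ∧ z ∉ C := by
      intro x y z h
      have h' : 3 ≤ (({x, y, z} : Set τ) \ C).ncard := by exact_mod_cast h
      have g : ∀ p q : τ, ({x, y, z} : Set τ) \ C ⊆ {p, q} → False := by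
        intro p q hpq
        have h1 := Set.ncard_le_ncard hpq (Set.toFinite _)
        have h2 := Set.ncard_insert_le p {q}
        rw [Set.ncard_singleton] at h2
        omega
      refine ⟨?_, ?_, ?_, ?_, ?_, ?_⟩
      · rintro rfl
        refine g x z ?_
        rintro w ⟨hw, _⟩
        simp only [mem_insert_iff, mem_singleton_iff] at hw ⊢
        tauto
      · rintro rfl
        refine g x y ?_
        rintro w ⟨hw, _⟩
        simp only [mem_insert_iff, mem_singleton_iff] at hw ⊢
        tauto
      · rintro rfl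
        refine g x y ?_
        rintro w ⟨hw, _⟩
        simp only [mem_insert_iff, mem_singleton_iff] at hw ⊢
        tauto
      · intro hx
        refine g y z ?_
        rintro w ⟨rfl | hw, hw'⟩
        · exact absurd hx hw'
        · exact hw
      · intro hx
        refine g x z ?_
        rintro w ⟨rfl | rfl | hw, hw'⟩
        · exact Or.inl rfl
        · exact absurd hx hw'
        · exact Or.inr hw
      · intro hx
        refine g x y ?_
        rintro w ⟨rfl | rfl | rfl, hw'⟩
        · exact Or.inl rfl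
        · exact Or.inr rfl
        · exact absurd hx hw'
    obtain ⟨i1, i2, i3, i4, i5, i6⟩ := three a b c h5
    obtain ⟨j1, j2, j3, j4, j5, j6⟩ := three a d e h6
    obtain ⟨k1, k2, k3, k4, k5, k6⟩ := three b d m h7
    have hs : ({a, b, d} : Set τ) \ C = {a, b, d} := by
      ext w
      simp only [mem_sdiff, mem_insert_iff, mem_singleton_iff]
      constructor
      · exact fun h => h.1
      · rintro (rfl | rfl | rfl)
        · exact ⟨Or.inl rfl, i4⟩
        · exact ⟨Or.inr (Or.inl rfl), i5⟩
        · exact ⟨Or.inr (Or.inr rfl), j5⟩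
    rw [hs, Set.ncard_eq_three.2 ⟨a, b, d, i1, j1, k1, rfl⟩] at h1
    norm_num at h1

end Pool.Agent.W2helper98.K4
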