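import Pool.Agent.W2helper98.K4.Core
import Pool.Agent.Helper442.FE.Gn
import Pool.Agent.Helper236.Six

/-!
# Copies of `M(K_4)` and rank functions
-/

set_option autoImplicit false

namespace Pool.Agent.W2helper98.K4

open Set Pool.Agent.Helper442.FE Pool.Agent.Helper236

/-- `K` is the cycle matroid of the complete graph `K_4` on the vertices `0, 1, 2, 3`: its ground
set is the set of the six edges of `K_4`, and a set of edges is independent iff it contains no
cycle. -/
def IsCycleMatroidK4 (K : Matroid (Sym2 (Fin 4))) : Prop :=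
  K.E = (⊤ : SimpleGraph (Fin 4)).edgeSet ∧
    ∀ I ⊆ K.E, K.Indep I ↔ (SimpleGraph.fromEdgeSet I).IsAcyclic

/-- `N` is isomorphic to `M(K_4)`. -/
def IsMK4 {α : Type} (N : Matroid α) : Prop :=
  ∃ K : Matroid (Sym2 (Fin 4)), IsCycleMatroidK4 K ∧ Pool.Agent.Helper442.FE.Iso N K

/-- the independent sets of `M(K_4)` -/
def good4 (J : Finset (Fin 6)) : Prop :=
  J.card ≤ 3 ∧ J ≠ {0, 1, 3} ∧ J ≠ {0, 2, 4} ∧ J ≠ {1, 2, 5} ∧ J ≠ {3, 4, 5}

instance (J : Finset (Fin 6)) : Decidable (good4 J) := by unfold good4; infer_instance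

theorem indep_cyc4 (J : Finset (Fin 6)) : (cyc ℚ 4).Indep (ed '' (J : Set (Fin 6))) ↔ good4 J := by
  rw [cyc_indep, six_indep (by norm_num) (by norm_num) (by norm_num) (by norm_num) (by norm_num)
    (by norm_num)]
  have : (1 : ℚ) * (-1) * 1 + -1 * 1 * (-1) = 0 := by norm_num
  simp only [this, true_implies, good4]

theorem eq_cyc4 {K : Matroid (Sym2 (Fin 4))} (hK : IsCycleMatroidK4 K) : K = cyc ℚ 4 := by
  have h := cyc_isCompleteGraphMatroid ℚ 4
  refine Matroid.ext_indep (hK.1.trans h.1.symm) fun I hI => ?_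
  rw [hK.2 I hI, h.2 I (by rw [h.1, ← hK.1]; exact hI)]

theorem isCycle_cyc4 : IsCycleMatroidK4 (cyc ℚ 4) := cyc_isCompleteGraphMatroid ℚ 4

/-- an explicit description of the matroids isomorphic to `M(K_4)` -/
theorem isMK4_iff {α : Type} (N : Matroid α) : IsMK4 N ↔
    ∃ p : Fin 6 → α, Function.Injective p ∧ N.E = range p ∧
      ∀ J : Finset (Fin 6), N.Indep (p '' (J : Set (Fin 6))) ↔ good4 J := by
  classical
  constructor
  · rintro ⟨K, hK, e, he⟩
    have hE : ∀ i, ed i ∈ K.E := by
      intro i
      rw [hK.1, ← range_ed]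
      exact mem_range_self i
    refine ⟨fun i => (e.symm ⟨ed i, hE i⟩ : N.E), ?_, ?_, ?_⟩
    · intro i j hij
      have h1 := e.symm.injective (Subtype.ext hij)
      exact ed_inj (congrArg Subtype.val h1)
    · ext x
      constructor
      · intro hx
        have h1 : ((e ⟨x, hx⟩ : K.E) : Sym2 (Fin 4)) ∈ range ed := by
          rw [range_ed, ← hK.1]
          exact (e ⟨x, hx⟩).2
        obtain ⟨i, hi⟩ := h1
        refine ⟨i, ?_⟩
        have h2 : (⟨ed i, hE i⟩ : K.E) = e ⟨x, hx⟩ := Subtype.ext hi
        simp only [h2, Equiv.symm_apply_apply]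
      · rintro ⟨i, rfl⟩
        exact Subtype.coe_prop _
    · intro J
      rw [← indep_cyc4, ← eq_cyc4 hK]
      have h1 := he ((fun i => e.symm ⟨ed i, hE i⟩) '' (J : Set (Fin 6)))
      rw [image_image, image_image, image_image] at h1
      simp only [Equiv.apply_symm_apply] at h1
      exact h1
  · rintro ⟨p, hp, hE, h⟩
    refine ⟨cyc ℚ 4, isCycle_cyc4, ?_⟩
    refine iso_of_maps hp ed_inj hE ?_ ?_
    · rw [range_ed]
      exact isCycle_cyc4.1
    · intro J
      have hJ : J = ((J.toFinset : Finset (Fin 6)) : Set (Fin 6)) := by simp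
      rw [hJ, h, indep_cyc4]

theorem isRank_rk {α : Type} {M : Matroid α} (hM : M.E.Finite) :
    IsRank (Pool.Agent.Helper442.FE.rk M) where
  empty := rk_empty M
  mono _ _ h := rk_mono hM h
  insert_le := rk_insert_le hM
  submod A B := by
    have := Pool.Agent.Helper442.FE.rk_submod hM A B
    exact this

open scoped Matroid

/-- independence in a contraction -/
theorem contract_indep {α : Type} {M : Matroid α} (hM : M.E.Finite) (C : Set α) {J : Set α}
    (hJ : J ⊆ M.E) : (M ／ C).Indep J ↔ (J.ncard : ℤ) ≤ ctr (Pool.Agent.Helper442.FE.rk M) C J := by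
  obtain ⟨I, hI⟩ := M.exists_isBasis' C
  rw [hI.contract_indep_iff]
  have hr := isRank_rk hM
  have hIE : I ⊆ M.E := hI.indep.subset_ground
  have hIC : I ⊆ C := hI.subset
  have hIf : I.Finite := hM.subset hIE
  have hJf : J.Finite := hM.subset hJ
  have e1 : Pool.Agent.Helper442.FE.rk M C = Pool.Agent.Helper442.FE.rk M I := by
    unfold Pool.Agent.Helper442.FE.rk
    rw [hI.eRk_eq_eRk]
  have e2 : Pool.Agent.Helper442.FE.rk M I = I.ncard := rk_indep hM hI.indep
  have e3 : Pool.Agent.Helper442.FE.rk M (J ∪ C) = Pool.Agent.Helper442.FE.rk M (J ∪ I) := by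
    apply le_antisymm
    · have h1 : Pool.Agent.Helper442.FE.rk M (I ∪ C) ≤ Pool.Agent.Helper442.FE.rk M I := by
        rw [union_eq_self_of_subset_left hIC, e1]
      have h2 := hr.absorb h1 (subset_union_right (s := J) (t := I))
      refine le_trans (hr.mono ?_) h2
      rw [union_assoc]
      exact union_subset_union_right _ subset_union_right
    · exact hr.mono (union_subset_union_right _ hIC)
  simp only [ctr, e3, e1, e2]
  have hJIf : (J ∪ I).Finite := hJf.union hIf
  constructor
  · rintro ⟨h1, h2⟩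
    have h3 := rk_indep hM h1
    have h4 : (J ∪ I).ncard = J.ncard + I.ncard := by
      apply Set.ncard_union_eq _ hJf hIf
      exact (h2.mono_left hIC).symm
    rw [h3, h4]
    push_cast
    omega
  · intro h1
    have h2 : (J ∪ I).ncard ≤ J.ncard + I.ncard := Set.ncard_union_le _ _
    have h3 : M.Indep (J ∪ I) := by
      rw [indep_iff_rk hM (union_subset hJ hIE)]
      have : ((J ∪ I).ncard : ℤ) ≤ J.ncard + I.ncard := by exact_mod_cast h2
      omega
    have h4 := rk_indep hM h3
    rw [h4] at h1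
    have h5 : J.ncard + I.ncard ≤ (J ∪ I).ncard := by
      have : (J.ncard : ℤ) + I.ncard ≤ (J ∪ I).ncard := by omega
      exact_mod_cast this
    have h6 := Set.ncard_union_add_ncard_inter J I hJf hIf
    have h7 : (J ∩ I).ncard = 0 := by omega
    rw [Set.ncard_eq_zero (hJf.subset inter_subset_left)] at h7
    refine ⟨h3, ?_⟩
    rw [Set.disjoint_left]
    intro x hxC hxJ
    have hxI : x ∉ I := by
      intro hxI
      have : x ∈ J ∩ I := ⟨hxJ, hxI⟩
      rw [h7] at this
      exact this
    have h8 : M.Indep (insert x I) := h3.subset (by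
      rintro y (rfl | hy)
      · exact Or.inl hxJ
      · exact Or.inr hy)
    exact hxI (hI.mem_of_insert_indep hxC h8)

section quad

variable {α : Type} {ρ : Set α → ℤ} {a b c d e m : α}

theorem Quad.kl (h : Quad ρ a b c d e m) : Quad ρ a c b e d m := by
  obtain ⟨h1, h2, h3, h4, h5, h6, h7, h8⟩ := h
  exact ⟨h2, h1, by rwa [t1 c b m], by rwa [t1 e d m], by rwa [t2 a c b], by rwa [t2 a e d], h8, h7⟩

theorem Quad.ij (h : Quad ρ a b c d e m) : Quad ρ a d e b c m := by
  obtain ⟨h1, h2, h3, h4, h5, h6, h7, h8⟩ := h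
  exact ⟨by rwa [t2 a d b], by rwa [t2 a e c], h4, h3, h6, h5, by rwa [t1 d b m],
    by rwa [t1 e c m]⟩

theorem Quad.jk (h : Quad ρ a b c d e m) : Quad ρ b a c d m e := by
  obtain ⟨h1, h2, h3, h4, h5, h6, h7, h8⟩ := h
  exact ⟨by rwa [t1 b a d], h3, h2, by rwa [t2 d m e], by rwa [t1 b a c], h7, h6, by rwa [t2 c m e]⟩

/-- a Hamilton path is independent: the edges `ij, jk, kl` -/
theorem Quad.path (hρ : IsRank ρ) (h : Quad ρ a b c d e m) : 3 ≤ ρ {a, d, m} := by
  obtain ⟨h1, h2, h3, h4, h5, h6, h7, h8⟩ := h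
  have s1 := hρ.submod {a, b, d} {a, d, m}
  have s2 : ρ {b, d, m} ≤ ρ ({a, b, d} ∪ {a, d, m}) := by
    apply hρ.mono
    intro x hx
    simp only [mem_insert_iff, mem_singleton_iff, mem_union] at hx ⊢
    tauto
  have s3 : ρ {a, d} ≤ ρ ({a, b, d} ∩ {a, d, m}) := by
    apply hρ.mono
    intro x hx
    simp only [mem_insert_iff, mem_singleton_iff, mem_inter_iff] at hx ⊢
    tauto
  have s4 : ρ {a, d, e} ≤ ρ {a, d} + 1 := by
    rw [t5 a d e]
    exact hρ.insert_le _ _
  omega

/-- the rank is three -/
theorem Quad.le_three (hρ : IsRank ρ) (h : Quad ρ a b c d e m) : ρ {a, b, c, d, e, m} ≤ 3 := by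
  obtain ⟨h1, h2, h3, h4, h5, h6, h7, h8⟩ := h
  have p1 : ρ {a, b, c} ≤ ρ {a, b} + 1 := by rw [t5 a b c]; exact hρ.insert_le _ _
  have p2 : ρ {a, b, c} ≤ ρ {a, c} + 1 := by rw [t1 a b c]; exact hρ.insert_le _ _
  have p3 : ρ {a, b, c} ≤ ρ {b, c} + 1 := hρ.insert_le _ _
  have e4 := hρ.union_le (A := {a, b, c}) (B := {d, e, m}) (Set.toFinite _) (by
    intro x hx
    rcases hx with rfl | rfl | rfl
    · apply hρ.absorb (A := {a, b})
      · have : ({a, b} ∪ {x} : Set α) = {a, b, x} := by rw [union_comm, singleton_union, t4]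
        rw [this]; omega
      · intro y hy
        simp only [mem_insert_iff, mem_singleton_iff] at hy ⊢
        tauto
    · apply hρ.absorb (A := {a, c})
      · have : ({a, c} ∪ {x} : Set α) = {a, c, x} := by rw [union_comm, singleton_union, t4]
        rw [this]; omega
      · intro y hy
        simp only [mem_insert_iff, mem_singleton_iff] at hy ⊢
        tauto
    · apply hρ.absorb (A := {b, c})
      · have : ({b, c} ∪ {x} : Set α) = {b, c, x} := by rw [union_comm, singleton_union, t4]
        rw [this]; omega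
      · intro y hy
        simp only [mem_insert_iff, mem_singleton_iff] at hy ⊢
        tauto)
  have e5 := hρ.triple_le a b c
  refine le_trans (hρ.mono ?_) (e4.trans e5)
  intro x hx
  simp only [mem_insert_iff, mem_singleton_iff, mem_union] at hx ⊢
  tauto

theorem perm (x y z x' y' z' : α) (h : ∀ w, (w = x ∨ w = y ∨ w = z) ↔ (w = x' ∨ w = y' ∨ w = z')) :
    ({x, y, z} : Set α) = {x', y', z'} := by
  ext w
  exact h w

theorem rk_good (hρ : IsRank ρ) (h : Quad ρ a b c d e m) : ∀ T ∈ good,
    3 ≤ ρ (![a, b, c, d, e, m] '' ((T : Finset (Fin 6)) : Set (Fin 6))) := by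
  intro T hT
  simp only [good, List.mem_cons, List.not_mem_nil, or_false] at hT
  rcases hT with rfl | rfl | rfl | rfl | rfl | rfl | rfl | rfl | rfl | rfl | rfl | rfl |
          rfl | rfl | rfl | rfl <;>
    simp only [Finset.coe_insert, Finset.coe_singleton, image_insert_eq, image_singleton,
      Matrix.cons_val]
  · exact h.si
  · exact le_of_le_of_eq (h.jk.ij.path hρ) (congrArg ρ (perm _ _ _ _ _ _ (by tauto)))
  · exact le_of_le_of_eq (h.ij.path hρ) (congrArg ρ (perm _ _ _ _ _ _ (by tauto)))
  · exact le_of_le_of_eq (h.ij.jk.ij.path hρ) (congrArg ρ (perm _ _ _ _ _ _ (by tauto)))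
  · exact le_of_le_of_eq (h.kl.ij.path hρ) (congrArg ρ (perm _ _ _ _ _ _ (by tauto)))
  · exact h.sj
  · exact le_of_le_of_eq (h.path hρ) (congrArg ρ (perm _ _ _ _ _ _ (by tauto)))
  · exact le_of_le_of_eq (h.kl.path hρ) (congrArg ρ (perm _ _ _ _ _ _ (by tauto)))
  · exact le_of_le_of_eq (h.ij.jk.path hρ) (congrArg ρ (perm _ _ _ _ _ _ (by tauto)))
  · exact le_of_le_of_eq (h.jk.kl.ij.path hρ) (congrArg ρ (perm _ _ _ _ _ _ (by tauto)))
  · exact le_of_le_of_eq (h.jk.path hρ) (congrArg ρ (perm _ _ _ _ _ _ (by tauto)))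
  · exact h.sk
  · exact le_of_le_of_eq (h.jk.kl.path hρ) (congrArg ρ (perm _ _ _ _ _ _ (by tauto)))
  · exact le_of_le_of_eq (h.kl.jk.path hρ) (congrArg ρ (perm _ _ _ _ _ _ (by tauto)))
  · exact le_of_le_of_eq (h.ij.jk.kl.path hρ) (congrArg ρ (perm _ _ _ _ _ _ (by tauto)))
  · exact h.sl

theorem exists_good : ∀ i j : Fin 6, i ≠ j → ∃ T ∈ good, i ∈ T ∧ j ∈ T := by decide

theorem good_card : ∀ T ∈ good, T.card = 3 := by decide

theorem Quad.injective (hρ : IsRank ρ) (h : Quad ρ a b c d e m) :
    Function.Injective ![a, b, c, d, e, m] := by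
  intro i j hij
  by_contra hne
  obtain ⟨T, hT, hi, hj⟩ := exists_good i j hne
  have h1 := rk_good hρ h T hT
  have h2 : (![a, b, c, d, e, m] '' ((T : Finset (Fin 6)) : Set (Fin 6))) =
      ![a, b, c, d, e, m] '' ((T.erase j : Finset (Fin 6)) : Set (Fin 6)) := by
    ext x
    constructor
    · rintro ⟨k, hk, rfl⟩
      by_cases hkj : k = j
      · subst hkj
        exact ⟨i, by simp [hne, hi], hij⟩
      · exact ⟨k, by simp only [Finset.coe_erase, mem_sdiff, mem_singleton_iff]; exact ⟨hk, hkj⟩,
          rfl⟩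
    · rintro ⟨k, hk, rfl⟩
      exact ⟨k, Finset.mem_of_mem_erase hk, rfl⟩
  have h3 : (T.erase j).card = 2 := by
    rw [Finset.card_erase_of_mem hj, good_card T hT]
  obtain ⟨u, v, huv, h4⟩ := Finset.card_eq_two.1 h3
  rw [h2, h4] at h1
  simp only [Finset.coe_insert, Finset.coe_singleton, image_insert_eq, image_singleton] at h1
  have h5 := hρ.pair_le (![a, b, c, d, e, m] u) (![a, b, c, d, e, m] v)
  omega

theorem range_six : range ![a, b, c, d, e, m] = {a, b, c, d, e, m} := by
  simp only [Matrix.range_cons, Matrix.range_empty, union_empty, singleton_union]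

/-- adding a set raises the rank by at most the number of its elements -/
theorem drop (hρ : IsRank ρ) (p : Fin 6 → α) (D : Finset (Fin 6)) (S : Set α) :
    ρ (S ∪ p '' (D : Set (Fin 6))) ≤ ρ S + D.card := by
  induction D using Finset.induction_on with
  | empty => simp
  | insert x D hx ih =>
    have h9 : (insert x D).card = D.card + 1 := Finset.card_insert_of_notMem hx
    have h8 := hρ.insert_le (S ∪ p '' (D : Set (Fin 6))) (p x)
    rw [Finset.coe_insert, image_insert_eq, union_insert, h9]
    push_cast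
    omega

theorem good4_iff (hρ : IsRank ρ) (h : Quad ρ a b c d e m) (J : Finset (Fin 6)) :
    good4 J ↔ (J.card : ℤ) ≤ ρ (![a, b, c, d, e, m] '' (J : Set (Fin 6))) := by
  constructor
  · rintro ⟨h1, h2, h3, h4, h5⟩
    rcases good_cover J h1 h2 h3 h4 with h6 | ⟨T, hT, hJT⟩
    · exact absurd h6 h5
    · have h6 := rk_good hρ h T hT
      have h7 := drop hρ ![a, b, c, d, e, m] (T \ J) (![a, b, c, d, e, m] '' (J : Set (Fin 6)))
      rw [← image_union, ← Finset.coe_union, Finset.union_sdiff_of_subset hJT] at h7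
      have h8 : (T \ J).card + J.card = T.card := Finset.card_sdiff_add_card_eq_card hJT
      rw [good_card T hT] at h8
      omega
  · intro h1
    have h2 : ρ (![a, b, c, d, e, m] '' (J : Set (Fin 6))) ≤ 3 := by
      refine (hρ.mono ?_).trans (h.le_three hρ)
      rw [← range_six]
      exact image_subset_range _ _
    refine ⟨by omega, ?_, ?_, ?_, ?_⟩
    · rintro rfl
      simp only [Finset.coe_insert, Finset.coe_singleton, image_insert_eq, image_singleton,
        Matrix.cons_val] at h1
      have h3 : (({0, 1, 3} : Finset (Fin 6)).card : ℤ) = 3 := by decide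
      have := h.tl
      omega
    · rintro rfl
      simp only [Finset.coe_insert, Finset.coe_singleton, image_insert_eq, image_singleton,
        Matrix.cons_val] at h1
      have h3 : (({0, 2, 4} : Finset (Fin 6)).card : ℤ) = 3 := by decide
      have := h.tk
      omega
    · rintro rfl
      simp only [Finset.coe_insert, Finset.coe_singleton, image_insert_eq, image_singleton,
        Matrix.cons_val] at h1
      have h3 : (({1, 2, 5} : Finset (Fin 6)).card : ℤ) = 3 := by decide
      have := h.tj
      omega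
    · rintro rfl
      simp only [Finset.coe_insert, Finset.coe_singleton, image_insert_eq, image_singleton,
        Matrix.cons_val] at h1
      have h3 : (({3, 4, 5} : Finset (Fin 6)).card : ℤ) = 3 := by decide
      have := h.ti
      omega

end quad

/-- **A finite matroid has a minor isomorphic to `M(K_4)` iff its rank function has a
quadrilateral in some contraction.** -/
theorem hasQ_iff {α : Type} {M : Matroid α} (hM : M.E.Finite) :
    HasQ (Pool.Agent.Helper442.FE.rk M) ↔ ∃ N, N ≤m M ∧ IsMK4 N := by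
  classical
  have hr := isRank_rk hM
  constructor
  · rintro ⟨C, a, b, c, d, e, m, h⟩
    have hρ := hr.ctr C
    set p : Fin 6 → α := ![a, b, c, d, e, m] with hp
    have hpinj : Function.Injective p := h.injective hρ
    have hpE : ∀ i, p i ∈ M.E ∧ p i ∉ C := by
      intro i
      have h1 : (1 : ℤ) ≤ ctr (Pool.Agent.Helper442.FE.rk M) C {p i} := by
        have h2 := (good4_iff hρ h {i}).1 (by revert i; decide)
        simpa using h2
      constructor
      · by_contra hi
        have h2 : Pool.Agent.Helper442.FE.rk M ({p i} ∪ C) = Pool.Agent.Helper442.FE.rk M C := by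
          rw [← rk_inter_ground M ({p i} ∪ C), ← rk_inter_ground M C]
          congr 1
          ext x
          simp only [mem_inter_iff, mem_union, mem_singleton_iff]
          constructor
          · rintro ⟨rfl | hx, hx'⟩
            · exact absurd hx' hi
            · exact ⟨hx, hx'⟩
          · rintro ⟨hx, hx'⟩
            exact ⟨Or.inr hx, hx'⟩
        simp only [ctr] at h1
        omega
      · intro hi
        have h2 : ({p i} ∪ C : Set α) = C := union_eq_self_of_subset_left
          (singleton_subset_iff.2 hi)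
        simp only [ctr, h2] at h1
        omega
    refine ⟨M ／ C ＼ (M.E \ range p), Matroid.contract_delete_isMinor _ _ _, ?_⟩
    rw [isMK4_iff]
    refine ⟨p, hpinj, ?_, ?_⟩
    · ext x
      constructor
      · rintro ⟨⟨h1, h2⟩, h3⟩
        by_contra hx
        exact h3 ⟨h1, hx⟩
      · rintro ⟨i, rfl⟩
        exact ⟨hpE i, fun h => h.2 ⟨i, rfl⟩⟩
    · intro J
      have h1 : Disjoint (p '' (J : Set (Fin 6))) (M.E \ range p) := by
        rw [Set.disjoint_left]
        rintro _ ⟨i, _, rfl⟩ ⟨_, h⟩
        exact h ⟨i, rfl⟩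
      rw [Matroid.delete_indep_iff, and_iff_left h1, contract_indep hM C (by
        rintro _ ⟨i, _, rfl⟩
        exact (hpE i).1), Set.ncard_image_of_injective _ hpinj, Set.ncard_coe_finset,
        good4_iff hρ h]
  · rintro ⟨N, hN, hK⟩
    obtain ⟨C, D, hC, hD, hCD, rfl⟩ := hN.exists_eq_contract_delete_disjoint
    obtain ⟨p, hp, hE, hI⟩ := (isMK4_iff _).1 hK
    have hpE : ∀ i, (p i ∈ M.E ∧ p i ∉ C) ∧ p i ∉ D := by
      intro i
      have : p i ∈ (M ／ C ＼ D).E := hE ▸ mem_range_self i
      exact this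
    have key : ∀ J : Finset (Fin 6), good4 J ↔
        (J.card : ℤ) ≤ ctr (Pool.Agent.Helper442.FE.rk M) C (p '' (J : Set (Fin 6))) := by
      intro J
      have h1 : Disjoint (p '' (J : Set (Fin 6))) D := by
        rw [Set.disjoint_left]
        rintro _ ⟨i, _, rfl⟩ h
        exact (hpE i).2 h
      rw [← hI, Matroid.delete_indep_iff, and_iff_left h1, contract_indep hM C (by
        rintro _ ⟨i, _, rfl⟩
        exact (hpE i).1.1), Set.ncard_image_of_injective _ hp, Set.ncard_coe_finset]
    have line : ∀ i j k : Fin 6, ¬ good4 {i, j, k} → ({i, j, k} : Finset (Fin 6)).card = 3 →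
        ctr (Pool.Agent.Helper442.FE.rk M) C {p i, p j, p k} ≤ 2 := by
      intro i j k h1 h2
      rw [key, h2] at h1
      simp only [Finset.coe_insert, Finset.coe_singleton, image_insert_eq, image_singleton] at h1
      push_cast at h1
      omega
    have star : ∀ i j k : Fin 6, good4 {i, j, k} → ({i, j, k} : Finset (Fin 6)).card = 3 →
        3 ≤ ctr (Pool.Agent.Helper442.FE.rk M) C {p i, p j, p k} := by
      intro i j k h1 h2
      rw [key, h2] at h1
      simp only [Finset.coe_insert, Finset.coe_singleton, image_insert_eq, image_singleton] at h1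
      push_cast at h1
      omega
    exact ⟨C, p 0, p 1, p 2, p 3, p 4, p 5, line 0 1 3 (by decide) (by decide),
      line 0 2 4 (by decide) (by decide), line 1 2 5 (by decide) (by decide),
      line 3 4 5 (by decide) (by decide), star 0 1 2 (by decide) (by decide),
      star 0 3 4 (by decide) (by decide), star 1 3 5 (by decide) (by decide),
      star 2 4 5 (by decide) (by decide)⟩

end Pool.Agent.W2helper98.K4
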