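import Pool.Agent.W2helper98.K4.Minor

/-!
# Isomorphism, direct sums, duality and truncation
-/

set_option autoImplicit false

namespace Pool.Agent.W2helper98.K4

open Set Pool.Agent.Helper442.FE

open scoped Matroid

section quad

variable {α : Type} {ρ : Set α → ℤ} {a b c d e m : α}

theorem pairs_of_triple (hρ : IsRank ρ) (h : 3 ≤ ρ {a, b, c}) :
    2 ≤ ρ {a, b} ∧ 2 ≤ ρ {a, c} ∧ 2 ≤ ρ {b, c} := by
  have p1 : ρ {a, b, c} ≤ ρ {a, b} + 1 := by rw [t5 a b c]; exact hρ.insert_le _ _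
  have p2 : ρ {a, b, c} ≤ ρ {a, c} + 1 := by rw [t1 a b c]; exact hρ.insert_le _ _
  have p3 : ρ {a, b, c} ≤ ρ {b, c} + 1 := hρ.insert_le _ _
  omega

end quad

/-- maps that preserve the rank of the subsets of `E` -/
theorem HasQ.mapOn {α β : Type} {r : Set α → ℤ} {s : Set β → ℤ} (f : α → β) (E : Set α)
    (hr : IsRank r) (hE : ∀ S : Set α, r (S ∩ E) = r S) (h : ∀ S ⊆ E, s (f '' S) = r S)
    (hq : HasQ r) : HasQ s := by
  obtain ⟨C, a, b, c, d, e, m, hq⟩ := hq
  have hctr : ctr r (C ∩ E) = ctr r C := by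
    funext S
    simp only [ctr, hE C]
    rw [← hE (S ∪ C ∩ E), ← hE (S ∪ C)]
    congr 2
    ext x
    simp only [mem_inter_iff, mem_union]
    tauto
  rw [← hctr] at hq
  have hρ := hr.ctr (C ∩ E)
  have hmem : ∀ x y z : α, 3 ≤ ctr r (C ∩ E) {x, y, z} → x ∈ E := by
    intro x y z h1
    by_contra hx
    have h2 := hρ.pair_le y z
    have h3 : ctr r (C ∩ E) {x, y, z} = ctr r (C ∩ E) {y, z} := by
      simp only [ctr]
      rw [← hE ({x, y, z} ∪ C ∩ E), ← hE ({y, z} ∪ C ∩ E)]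
      congr 2
      ext w
      simp only [mem_inter_iff, mem_union, mem_insert_iff, mem_singleton_iff]
      constructor
      · rintro ⟨(rfl | h) | h, h'⟩
        · exact absurd h' hx
        · exact ⟨Or.inl h, h'⟩
        · exact ⟨Or.inr h, h'⟩
      · rintro ⟨h | h, h'⟩
        · exact ⟨Or.inl (Or.inr h), h'⟩
        · exact ⟨Or.inr h, h'⟩
    omega
  have key : ∀ x y z : α, x ∈ E → y ∈ E → z ∈ E →
      ctr s (f '' (C ∩ E)) {f x, f y, f z} = ctr r (C ∩ E) {x, y, z} := by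
    intro x y z hx hy hz
    simp only [ctr]
    have h1 : ({x, y, z} : Set α) ⊆ E := by
      intro w hw
      rcases hw with rfl | rfl | rfl <;> assumption
    rw [← h _ (union_subset h1 inter_subset_right), ← h _ inter_subset_right, image_union]
    simp only [image_insert_eq, image_singleton]
  obtain ⟨h1, h2, h3, h4, h5, h6, h7, h8⟩ := hq
  have ha := hmem a b c h5
  have hb := hmem b a c (by rwa [t1 b a c])
  have hc := hmem c a b (by rwa [t4 c a b])
  have hd := hmem d a e (by rwa [t1 d a e])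
  have he := hmem e a d (by rwa [t4 e a d])
  have hm := hmem m b d (by rwa [t4 m b d])
  refine ⟨f '' (C ∩ E), f a, f b, f c, f d, f e, f m, ?_⟩
  constructor <;> rw [key] <;> assumption

theorem hasQ_iso {α β : Type} {M : Matroid α} {N : Matroid β} (hM : M.E.Finite) (hiso : Iso M N)
    (h : HasQ (rk N)) : HasQ (rk M) := by
  classical
  obtain ⟨e, he⟩ := hiso
  have hN : N.E.Finite := by
    have : Finite M.E := hM
    have : Finite N.E := Finite.of_equiv _ e
    exact Set.toFinite _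
  by_cases hne : Nonempty N.E
  · obtain ⟨y₀⟩ := hne
    let f : β → α := fun y => if hy : y ∈ N.E then (e.symm ⟨y, hy⟩ : M.E) else (e.symm y₀ : M.E)
    refine h.mapOn f N.E (isRank_rk hN) (fun S => rk_inter_ground N S) fun S hS => ?_
    rw [rk_iso hM hN e he hS]
    congr 1
    ext x
    constructor
    · rintro ⟨y, hy, rfl⟩
      have hyN := hS hy
      simp only [f, dif_pos hyN]
      refine ⟨e.symm ⟨y, hyN⟩, ?_, rfl⟩
      simpa using hy
    · rintro ⟨z, hz, rfl⟩
      refine ⟨(e z : β), hz, ?_⟩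
      simp only [f, dif_pos (e z).2, Subtype.coe_eta, Equiv.symm_apply_apply]
  · exfalso
    have hE : N.E = ∅ := by
      rw [Set.eq_empty_iff_forall_notMem]
      exact fun x hx => hne ⟨⟨x, hx⟩⟩
    obtain ⟨C, a, b, c, d, e', m, hq⟩ := h
    have h1 := hq.si
    simp only [ctr] at h1
    rw [← rk_inter_ground N ({a, b, c} ∪ C), hE, inter_empty, rk_empty] at h1
    have := rk_nonneg N C
    omega

theorem side {α β : Type} {r : Set (α ⊕ β) → ℤ} {r₁ : Set α → ℤ} {r₂ : Set β → ℤ}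
    (h₁ : IsRank r₁) (h₂ : IsRank r₂)
    (h : ∀ S, r S = r₁ (Sum.inl ⁻¹' S) + r₂ (Sum.inr ⁻¹' S)) {x y z : α ⊕ β}
    (hxyz : r {x, y, z} ≤ 2) (hxy : 2 ≤ r {x, y}) (hxz : 2 ≤ r {x, z}) (hyz : 2 ≤ r {y, z}) :
    x.isLeft = y.isLeft ∧ x.isLeft = z.isLeft := by
  have e1 : ∀ x y : α, r {Sum.inl x, Sum.inl y} = r₁ {x, y} := by
    intro x y
    have a1 : (Sum.inl ⁻¹' ({Sum.inl x, Sum.inl y} : Set (α ⊕ β)) : Set α) = {x, y} := by ext w; simp
    have a2 : (Sum.inr ⁻¹' ({Sum.inl x, Sum.inl y} : Set (α ⊕ β)) : Set β) = ∅ := by ext w; simp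
    rw [h, a1, a2, h₂.empty, add_zero]
  have e2 : ∀ x y : β, r {Sum.inr x, Sum.inr y} = r₂ {x, y} := by
    intro x y
    have a1 : (Sum.inl ⁻¹' ({Sum.inr x, Sum.inr y} : Set (α ⊕ β)) : Set α) = ∅ := by ext w; simp
    have a2 : (Sum.inr ⁻¹' ({Sum.inr x, Sum.inr y} : Set (α ⊕ β)) : Set β) = {x, y} := by ext w; simp
    rw [h, a1, a2, h₁.empty, zero_add]
  have e3 : ∀ (x : α) (y : β), r {Sum.inl x, Sum.inr y} = r₁ {x} + r₂ {y} := by
    intro x y
    have a1 : (Sum.inl ⁻¹' ({Sum.inl x, Sum.inr y} : Set (α ⊕ β)) : Set α) = {x} := by ext w; simp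
    have a2 : (Sum.inr ⁻¹' ({Sum.inl x, Sum.inr y} : Set (α ⊕ β)) : Set β) = {y} := by ext w; simp
    rw [h, a1, a2]
  have e4 : ∀ (x y : α) (z : β), r {Sum.inl x, Sum.inl y, Sum.inr z} = r₁ {x, y} + r₂ {z} := by
    intro x y z
    have a1 : (Sum.inl ⁻¹' ({Sum.inl x, Sum.inl y, Sum.inr z} : Set (α ⊕ β)) : Set α) = {x, y} := by ext w; simp
    have a2 : (Sum.inr ⁻¹' ({Sum.inl x, Sum.inl y, Sum.inr z} : Set (α ⊕ β)) : Set β) = {z} := by ext w; simp
    rw [h, a1, a2]
  have e5 : ∀ (x : α) (y z : β), r {Sum.inl x, Sum.inr y, Sum.inr z} = r₁ {x} + r₂ {y, z} := by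
    intro x y z
    have a1 : (Sum.inl ⁻¹' ({Sum.inl x, Sum.inr y, Sum.inr z} : Set (α ⊕ β)) : Set α) = {x} := by ext w; simp
    have a2 : (Sum.inr ⁻¹' ({Sum.inl x, Sum.inr y, Sum.inr z} : Set (α ⊕ β)) : Set β) = {y, z} := by ext w; simp
    rw [h, a1, a2]
  rcases x with x | x <;> rcases y with y | y <;> rcases z with z | z
  · exact ⟨rfl, rfl⟩
  · exfalso
    rw [e4] at hxyz; rw [e1] at hxy; rw [e3] at hxz
    have := h₁.single_le x
    omega
  · exfalso
    rw [t2, e4] at hxyz; rw [e1] at hxz; rw [e3] at hxy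
    have := h₁.single_le x
    omega
  · exfalso
    rw [e5] at hxyz; rw [e2] at hyz; rw [e3] at hxy
    have := h₂.single_le y
    omega
  · exfalso
    rw [t4, e4] at hxyz; rw [e1] at hyz; rw [pair_comm, e3] at hxy
    have := h₁.single_le y
    omega
  · exfalso
    rw [t1, e5] at hxyz; rw [e2] at hxz; rw [pair_comm, e3] at hxy
    have := h₂.single_le x
    omega
  · exfalso
    rw [t5, e5] at hxyz; rw [e2] at hxy; rw [pair_comm, e3] at hxz
    have := h₂.single_le x
    omega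
  · exact ⟨rfl, rfl⟩

/-- direct sums -/
theorem HasQ.of_sum {α β : Type} {r : Set (α ⊕ β) → ℤ} {r₁ : Set α → ℤ} {r₂ : Set β → ℤ}
    (hr : IsRank r) (h₁ : IsRank r₁) (h₂ : IsRank r₂)
    (h : ∀ S, r S = r₁ (Sum.inl ⁻¹' S) + r₂ (Sum.inr ⁻¹' S)) (hq : HasQ r) :
    HasQ r₁ ∨ HasQ r₂ := by
  obtain ⟨C, a, b, c, d, e, m, hq⟩ := hq
  set C₁ : Set α := Sum.inl ⁻¹' C with hC₁
  set C₂ : Set β := Sum.inr ⁻¹' C with hC₂
  have g := hr.ctr C
  have g₁ := h₁.ctr C₁
  have g₂ := h₂.ctr C₂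
  have hs : ∀ S, ctr r C S = ctr r₁ C₁ (Sum.inl ⁻¹' S) + ctr r₂ C₂ (Sum.inr ⁻¹' S) := by
    intro S
    simp only [ctr, h, preimage_union]
    ring
  obtain ⟨i1, i2, i3⟩ := pairs_of_triple g hq.si
  obtain ⟨j1, j2, j3⟩ := pairs_of_triple g hq.sj
  obtain ⟨k1, k2, k3⟩ := pairs_of_triple g hq.sk
  obtain ⟨l1, l2, l3⟩ := pairs_of_triple g hq.sl
  have s1 := side g₁ g₂ hs hq.tl i1 j1 k1
  have s2 := side g₁ g₂ hs hq.tk i2 j2 l1
  have s3 := side g₁ g₂ hs hq.tj i3 k2 l2
  have e1 : ∀ x y z : α, ctr r C {Sum.inl x, Sum.inl y, Sum.inl z} = ctr r₁ C₁ {x, y, z} := by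
    intro x y z
    have a1 : (Sum.inl ⁻¹' ({Sum.inl x, Sum.inl y, Sum.inl z} : Set (α ⊕ β)) : Set α) = {x, y, z} := by
      ext w; simp
    have a2 : (Sum.inr ⁻¹' ({Sum.inl x, Sum.inl y, Sum.inl z} : Set (α ⊕ β)) : Set β) = ∅ := by ext w; simp
    rw [hs, a1, a2, g₂.empty, add_zero]
  have e2 : ∀ x y z : β, ctr r C {Sum.inr x, Sum.inr y, Sum.inr z} = ctr r₂ C₂ {x, y, z} := by
    intro x y z
    have a1 : (Sum.inl ⁻¹' ({Sum.inr x, Sum.inr y, Sum.inr z} : Set (α ⊕ β)) : Set α) = ∅ := by ext w; simp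
    have a2 : (Sum.inr ⁻¹' ({Sum.inr x, Sum.inr y, Sum.inr z} : Set (α ⊕ β)) : Set β) = {x, y, z} := by
      ext w; simp
    rw [hs, a1, a2, g₁.empty, zero_add]
  rcases a with a | a <;> rcases b with b | b <;> rcases c with c | c <;> rcases d with d | d <;>
    rcases e with e | e <;> rcases m with m | m <;>
    simp only [Sum.isLeft_inl, Sum.isLeft_inr, Bool.true_eq_false, Bool.false_eq_true, and_false,
      false_and, and_self] at s1 s2 s3
  · left
    obtain ⟨h1, h2, h3, h4, h5, h6, h7, h8⟩ := hq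
    rw [e1] at h1 h2 h3 h4 h5 h6 h7 h8
    exact ⟨C₁, a, b, c, d, e, m, h1, h2, h3, h4, h5, h6, h7, h8⟩
  · right
    obtain ⟨h1, h2, h3, h4, h5, h6, h7, h8⟩ := hq
    rw [e2] at h1 h2 h3 h4 h5 h6 h7 h8
    exact ⟨C₂, a, b, c, d, e, m, h1, h2, h3, h4, h5, h6, h7, h8⟩

theorem hasQ_sum {α β : Type} {M : Matroid α} {N : Matroid β} (hM : M.E.Finite) (hN : N.E.Finite)
    (h : HasQ (rk (M.sum N))) : HasQ (rk M) ∨ HasQ (rk N) := by
  have hE : (M.sum N).E.Finite := by
    rw [Matroid.sum_ground]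
    exact (hM.image _).union (hN.image _)
  exact h.of_sum (isRank_rk hE) (isRank_rk hM) (isRank_rk hN) (rk_sum hM hN)

/-- truncation -/
theorem trunc_aux {α : Type} {r : Set α → ℤ} (hr : IsRank r) {E : Set α} (hEf : E.Finite)
    (hE : ∀ S, r (S ∪ E) = r E) (hE' : ∀ S, r S ≤ r E) : ∀ (j k : ℕ), r E = k + j →
    IsRank (fun S => min (r S) (k : ℤ)) ∧ (HasQ (fun S => min (r S) (k : ℤ)) → HasQ r) := by
  intro j
  induction j with
  | zero =>
    intro k hk
    have : (fun S => min (r S) (k : ℤ)) = r := by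
      funext S
      have := hE' S
      push_cast at hk
      omega
    rw [this]
    exact ⟨hr, id⟩
  | succ j ih =>
    intro k hk
    obtain ⟨h1, h2⟩ := ih (k + 1) (by push_cast at hk ⊢; omega)
    have h3 : 1 ≤ (fun S => min (r S) ((k + 1 : ℕ) : ℤ)) E := by
      push_cast at hk ⊢
      omega
    have h4 : (fun S => min (r S) (k : ℤ)) = pt (fun S => min (r S) ((k + 1 : ℕ) : ℤ)) E := by
      funext S
      simp only [pt, hE]
      push_cast at hk ⊢
      omega
    rw [h4]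
    exact ⟨h1.pt h3, fun hq => h2 (HasQ.of_pt h1 hEf h3 hq)⟩

theorem hasQ_truncation {α : Type} {M T : Matroid α} {k : ℕ} (hM : M.E.Finite)
    (hk : (k : ℕ∞) ≤ M.eRank) (hT : IsTruncation M k T) (h : HasQ (rk T)) : HasQ (rk M) := by
  have hr := isRank_rk hM
  have hk' := rk_ground_eq hM hk
  have e1 : rk T = fun S => min (rk M S) (k : ℤ) := by
    funext S
    exact rk_truncation hM hT S
  rw [e1] at h
  have hE : ∀ S, rk M (S ∪ M.E) = rk M M.E := by
    intro S
    rw [← rk_inter_ground M (S ∪ M.E), union_inter_cancel_right]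
  have hE' : ∀ S, rk M S ≤ rk M M.E := by
    intro S
    rw [← rk_inter_ground M S]
    exact hr.mono inter_subset_right
  obtain ⟨j, hj⟩ : ∃ j : ℕ, rk M M.E = k + j := ⟨(rk M M.E - k).toNat, by omega⟩
  exact (trunc_aux hr hM hE hE' j k hj).2 h

/-- duality -/
theorem hasQ_dual {α : Type} {M : Matroid α} (hM : M.E.Finite) (h : HasQ (rk M✶)) :
    HasQ (rk M) := by
  classical
  have hM' : M✶.E.Finite := hM
  rw [hasQ_iff hM'] at h
  obtain ⟨N, hN, hK⟩ := h
  have hNE : N.E.Finite := hM'.subset hN.subset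
  have hNM : N✶ ≤m M := by
    obtain ⟨C, D, hC, hD, hCD, rfl⟩ := hN.exists_eq_contract_delete_disjoint
    rw [Matroid.dual_contract_delete, Matroid.dual_dual]
    rw [← Matroid.contract_delete_comm _ hCD.symm]
    exact Matroid.contract_delete_isMinor _ _ _
  obtain ⟨p, hp, hE, hI⟩ := (isMK4_iff _).1 hK
  have hr := isRank_rk hNE
  have hsub : ∀ J : Finset (Fin 6), p '' (J : Set (Fin 6)) ⊆ N.E := by
    intro J
    rw [hE]
    exact image_subset_range _ _
  have key : ∀ J : Finset (Fin 6), good4 J ↔ (J.card : ℤ) ≤ rk N (p '' (J : Set (Fin 6))) := by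
    intro J
    rw [← hI, indep_iff_rk hNE (hsub J), Set.ncard_image_of_injective _ hp, Set.ncard_coe_finset]
  have htop : rk N N.E = 3 := by
    apply le_antisymm
    · obtain ⟨B, hB⟩ := N.exists_isBase
      have h1 : rk N N.E = rk N B := by
        unfold rk
        rw [hB.isBasis_ground.eRk_eq_eRk]
      rw [h1, rk_indep hNE hB.indep]
      have h2 : B = p '' ((Finset.univ.filter fun i => p i ∈ B : Finset (Fin 6)) : Set (Fin 6)) := by
        ext x
        constructor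
        · intro hx
          have h3 := hB.subset_ground hx
          rw [hE] at h3
          obtain ⟨i, rfl⟩ := h3
          exact ⟨i, by simpa using hx, rfl⟩
        · rintro ⟨i, hi, rfl⟩
          simpa using hi
      have h3 := hB.indep
      rw [h2, hI] at h3
      rw [h2, Set.ncard_image_of_injective _ hp, Set.ncard_coe_finset]
      exact_mod_cast h3.1
    · have h1 := (key {0, 1, 2}).1 (by decide)
      have h2 : ((({0, 1, 2} : Finset (Fin 6)).card : ℕ) : ℤ) = 3 := by decide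
      rw [h2] at h1
      exact h1.trans (hr.mono (hsub _))
  have hd : ∀ J : Finset (Fin 6), J.card = 3 →
      rk N✶ (p '' (J : Set (Fin 6))) = rk N (p '' ((Jᶜ : Finset (Fin 6)) : Set (Fin 6))) := by
    intro J hJ
    rw [rk_dual hNE (hsub J), htop, Set.ncard_image_of_injective _ hp, Set.ncard_coe_finset, hJ]
    have h1 : N.E \ p '' (J : Set (Fin 6)) = p '' ((Jᶜ : Finset (Fin 6)) : Set (Fin 6)) := by
      ext x
      rw [hE]
      constructor
      · rintro ⟨⟨i, rfl⟩, h⟩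
        refine ⟨i, ?_, rfl⟩
        simp only [Finset.coe_compl, mem_compl_iff, Finset.mem_coe]
        exact fun hi => h ⟨i, hi, rfl⟩
      · rintro ⟨i, hi, rfl⟩
        refine ⟨⟨i, rfl⟩, ?_⟩
        rintro ⟨j, hj, hij⟩
        rw [hp hij] at hj
        simp only [Finset.coe_compl, mem_compl_iff, Finset.mem_coe] at hi
        exact hi hj
    rw [h1]
    push_cast
    ring
  have line : ∀ i j k : Fin 6, ({i, j, k} : Finset (Fin 6)).card = 3 →
      ({i, j, k} : Finset (Fin 6))ᶜ.card = 3 → ¬ good4 ({i, j, k} : Finset (Fin 6))ᶜ →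
      ctr (rk N✶) ∅ {p i, p j, p k} ≤ 2 := by
    intro i j k h1 h2 h3
    have h4 := hd _ h1
    rw [key, h2] at h3
    simp only [Finset.coe_insert, Finset.coe_singleton, image_insert_eq, image_singleton] at h4
    simp only [ctr, union_empty, rk_empty, h4]
    omega
  have star : ∀ i j k : Fin 6, ({i, j, k} : Finset (Fin 6)).card = 3 →
      ({i, j, k} : Finset (Fin 6))ᶜ.card = 3 → good4 ({i, j, k} : Finset (Fin 6))ᶜ →
      3 ≤ ctr (rk N✶) ∅ {p i, p j, p k} := by
    intro i j k h1 h2 h3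
    have h4 := hd _ h1
    rw [key, h2] at h3
    simp only [Finset.coe_insert, Finset.coe_singleton, image_insert_eq, image_singleton] at h4
    simp only [ctr, union_empty, rk_empty, h4]
    omega
  have hQ : HasQ (rk N✶) := by
    refine ⟨∅, p 5, p 4, p 3, p 2, p 1, p 0, ?_⟩
    exact ⟨line 5 4 2 (by decide) (by decide) (by decide), line 5 3 1 (by decide) (by decide)
      (by decide), line 4 3 0 (by decide) (by decide) (by decide), line 2 1 0 (by decide)
      (by decide) (by decide), star 5 4 3 (by decide) (by decide) (by decide), star 5 2 1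
      (by decide) (by decide) (by decide), star 4 2 0 (by decide) (by decide) (by decide),
      star 3 1 0 (by decide) (by decide) (by decide)⟩
  have hND : N✶.E.Finite := hNE
  obtain ⟨N', hN', hK'⟩ := (hasQ_iff hND).1 hQ
  exact (hasQ_iff hM).2 ⟨N', hN'.trans hNM, hK'⟩

end Pool.Agent.W2helper98.K4
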